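import Pool.Agent.Lib.MP_d4c67c_gt.P.All

/-!
# Isomorphisms of the cells `Conf^{s^m}_{s^n}` of type `A_1`: cluster Poisson if and only if Poisson, and
all of them are cluster Poisson up to reversal
-/

namespace Pool.Agent.Results.MP_d4c67c_gt.TwoStrandA1

open Pool.Agent.Lib.MP_d4c67c_gt

/-- `k` algebraically closed of characteristic `0`.  Let `Φ : Conf^{s^m}_{s^n} → Conf^{s^{m'}}_{s^{n'}}` be an
isomorphism of type `A_1` (a bijection of `k`-points, regular in both directions).  Then `m + n = m' + n'` if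
`m + n ≥ 2`; `Φ` is a cluster Poisson transformation if and only if it preserves the Poisson structure; `Φ` or
`rev ∘ Φ` is a cluster Poisson transformation, and not both if `m + n ≥ 3`. -/
theorem result {k : Type*} [Field k] [IsAlgClosed k] [CharZero k] {m n m' n' : ℕ}
    (Φ : Conf k m n ≃ Conf k m' n') (h1 : IsRegularMap Φ) (h2 : IsRegularMap Φ.symm) :
    (2 ≤ m + n → m + n = m' + n') ∧
    (IsClusterPoisson Φ ↔ IsPoisson Φ) ∧
    (IsClusterPoisson Φ ∨ IsClusterPoisson (rev ∘ Φ)) ∧
    (3 ≤ m + n → ¬ (IsClusterPoisson Φ ∧ IsClusterPoisson (rev ∘ Φ))) :=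
  main_poisson Φ h1 h2

end Pool.Agent.Results.MP_d4c67c_gt.TwoStrandA1
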